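import Pool.Agent.helper33.GR2.Spec

/-!
# Project g2: module G2P
-/

set_option autoImplicit false

open Complex Metric Set Filter Topology MeasureTheory
open MPS (om)
open PPS (pre TT fd)
open XPS (Df er dens tau)
open Pool.Agent.helper16.Multibrot

noncomputable section

namespace GR

theorem G2P_SS (n : ℕ) (c : ℂ) (p : ℕ) (hp : 1 ≤ p) : 1 ≤ SS n c p := by
  unfold SS
  have h1 : (1 : ℕ) ∈ Finset.Icc 1 p := Finset.mem_Icc.2 ⟨le_rfl, hp⟩
  have hA : A n c 1 = 1 := by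
    unfold A
    rw [Finset.Ico_self, Finset.prod_empty]
  have h2 : ‖A n c 1‖ / ‖A n c 1‖ = 1 := by
    rw [hA, norm_one, div_one]
  have h3 : ‖A n c 1‖ / ‖A n c 1‖ ≤ ∑ j ∈ Finset.Icc 1 p, ‖A n c j‖ / ‖A n c 1‖ :=
    Finset.single_le_sum (f := fun j => ‖A n c j‖ / ‖A n c 1‖)
      (fun j _ => div_nonneg (norm_nonneg _) (norm_nonneg _)) h1
  have h4 : ∑ j ∈ Finset.Icc 1 p, ‖A n c j‖ / ‖A n c 1‖ ≤
      ∑ i ∈ Finset.Icc 1 p, ∑ j ∈ Finset.Icc 1 p, ‖A n c j‖ / ‖A n c i‖ :=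
    Finset.single_le_sum (f := fun i => ∑ j ∈ Finset.Icc 1 p, ‖A n c j‖ / ‖A n c i‖)
      (fun i _ => Finset.sum_nonneg fun j _ => div_nonneg (norm_nonneg _) (norm_nonneg _)) h1
  linarith

theorem G2P (hG2 : G2_stmt) (hWEX : WEX_stmt) : G2P_stmt := by
  obtain ⟨K, hK⟩ := hG2
  refine ⟨20 * |K|, fun c hc p hp x hx hZ => ?_⟩
  have hp1 : (1 : ℝ) ≤ p := by exact_mod_cast (le_trans one_le_two hp)
  have hlp : 0 ≤ Real.log p := Real.log_nonneg hp1
  have hlx : 0 ≤ Real.log x := Real.log_nonneg hx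
  have hx0 : 0 < x := by linarith
  by_cases hch : c ∈ hyperbolic 2
  · rw [Metric.infDist_zero_of_mem hch]
    have h1 : 0 ≤ |K| := abs_nonneg K
    have h2 : 0 ≤ (p : ℝ) * (1 + Real.log p) := by positivity
    positivity
  · have h1 := hK 2 le_rfl c hc p hp x hx hZ
    have h2 := hWEX c hc hch p (le_trans one_le_two hp)
    have h3 : 0 ≤ Real.log (SS 2 c p) := Real.log_nonneg (G2P_SS 2 c p (le_trans one_le_two hp))
    refine h1.trans ?_
    refine div_le_div_of_nonneg_right ?_ hx0.le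
    refine mul_le_mul_of_nonneg_right ?_ (by linarith)
    calc K * (1 + Real.log (SS 2 c p)) ≤ |K| * (1 + Real.log (SS 2 c p)) :=
          mul_le_mul_of_nonneg_right (le_abs_self K) (by linarith)
      _ ≤ |K| * (20 * (p * (1 + Real.log p))) := mul_le_mul_of_nonneg_left h2 (abs_nonneg K)
      _ = 20 * |K| * (p * (1 + Real.log p)) := by ring

end GR
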